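import Pool.Agent.H17.PAry

set_option autoImplicit false

namespace Pool.Agent.Results.MP_7b566e_nt.Counter

/-- `A m k n`: the coefficient of `x ^ n` in `∏ (1 - x ^ (m ^ i)) ^ (-k)`; the factor
`1 / (1 - x ^ (m ^ i))` is the series with coefficient `1` at the multiples of `m ^ i`, and the
factors with `i > n` do not affect the coefficient. -/
noncomputable def A (m k n : ℕ) : ℤ :=
  PowerSeries.coeff n ((∏ i ∈ Finset.range (n + 1),
    PowerSeries.mk (fun j : ℕ => if m ^ i ∣ j then (1 : ℤ) else 0)) ^ k)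

theorem result :
    padicValInt 11 (A 11 ((11 - 1) * (9 * 11 ^ 1 - 1)) 132) = 3 ∧
    ¬ (∀ p u s : ℕ, p.Prime → 3 ≤ p → 2 ≤ u → u ≤ p - 1 → 1 ≤ s →
        (∀ n : ℕ, u * p ^ s ≤ n →
          padicValInt p (A p ((p - 1) * (u * p ^ s - 1)) n) = 1 ∨
          padicValInt p (A p ((p - 1) * (u * p ^ s - 1)) n) = 2)) := by
  have h : padicValInt 11 (A 11 ((11 - 1) * (9 * 11 ^ 1 - 1)) 132) = 3 := by
    have e : A 11 ((11 - 1) * (9 * 11 ^ 1 - 1)) 132 =
        (Pool.Agent.H17.PAry.a 11 979 133 132 : ℤ) :=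
      Pool.Agent.H17.PAry.coeff_eq 11 (by norm_num) 979 133 132
    rw [e, padicValInt.of_nat]
    haveI : Fact (Nat.Prime 11) := ⟨by norm_num⟩
    have h3 := Pool.Agent.H17.PAry.c1
    have h4 := Pool.Agent.H17.PAry.c2
    have hne : Pool.Agent.H17.PAry.a 11 979 133 132 ≠ 0 := fun h0 => h4 (h0 ▸ dvd_zero _)
    rw [padicValNat_dvd_iff_le hne] at h3 h4
    omega
  refine ⟨h, fun H => ?_⟩
  have := H 11 9 1 (by norm_num) (by norm_num) (by norm_num) (by norm_num) (by norm_num) 132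
    (by norm_num)
  omega

end Pool.Agent.Results.MP_7b566e_nt.Counter
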